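import Pool.Agent.helper80.EN.Spec2

/-!
# Row et:LNA: lines in tree metrics
-/

set_option autoImplicit false

namespace Pool.Agent.helper80.EN

universe u

theorem LNA_inj {V : Type u} {d : V → V → ℕ} (h : TM d) {f : ℤ → V} (hf : Par d f) {m n : ℤ}
    (e : f m = f n) : m = n := by
  have h1 := hf m n
  rw [(h.eq (f m) (f n)).mpr e, Nat.cast_zero] at h1
  have := abs_eq_zero.mp h1.symm
  omega

theorem LNA_cvx (hTG : TG_stmt.{u}) {V : Type u} {d : V → V → ℕ} (h : TM d) (f : ℤ → V)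
    (hf : Par d f) : Cvx d (Set.range f) := by
  rintro x ⟨m, rfl⟩ y ⟨n, rfl⟩ p hp
  have huniq := (hTG V d h).1
  have hd := hf m n
  unfold Bt at hp
  have hp' : (d (f m) p : ℤ) + (d p (f n) : ℤ) = |m - n| := by
    rw [← hd, ← hp, Nat.cast_add]
  rcases le_total m n with hmn | hmn
  · refine ⟨m + (d (f m) p : ℤ), (huniq (f m) (f n) p _ hp ?_ ?_).symm⟩
    · unfold Bt
      have h1 := hf m (m + (d (f m) p : ℤ))
      have h2 := hf (m + (d (f m) p : ℤ)) n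
      rw [abs_of_nonpos (by omega)] at h1 hp' hd
      rw [abs_of_nonpos (by omega)] at h2
      omega
    · have h1 := hf m (m + (d (f m) p : ℤ))
      rw [abs_of_nonpos (by omega)] at h1
      omega
  · refine ⟨m - (d (f m) p : ℤ), (huniq (f m) (f n) p _ hp ?_ ?_).symm⟩
    · unfold Bt
      have h1 := hf m (m - (d (f m) p : ℤ))
      have h2 := hf (m - (d (f m) p : ℤ)) n
      rw [abs_of_nonneg (by omega)] at h1 hp' hd
      rw [abs_of_nonneg (by omega)] at h2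
      omega
    · have h1 := hf m (m - (d (f m) p : ℤ))
      rw [abs_of_nonneg (by omega)] at h1
      omega

theorem LNA_sub {V : Type u} {d : V → V → ℕ} (_h : TM d) (f f' : ℤ → V) (hf : Par d f)
    (hf' : Par d f') (hs : ∀ n, ∃ m, f n = f' m) :
    ∃ ε t : ℤ, (ε = 1 ∨ ε = -1) ∧ ∀ n, f n = f' (ε * n + t) := by
  choose φ hφ using hs
  have hiso : ∀ m n : ℤ, |φ m - φ n| = |m - n| := by
    intro m n
    rw [← hf m n, ← hf' (φ m) (φ n), hφ m, hφ n]
  have h10 := hiso 1 0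
  have hcase : φ 1 - φ 0 = 1 ∨ φ 1 - φ 0 = -1 := by
    have := abs_eq_abs.mp h10
    omega
  refine ⟨φ 1 - φ 0, φ 0, hcase, ?_⟩
  intro n
  rw [hφ n]
  congr 1
  have h1 := abs_eq_abs.mp (hiso n 0)
  have h2 := abs_eq_abs.mp (hiso n 1)
  rcases hcase with hc | hc
  · rw [hc]; omega
  · rw [hc]; omega

theorem LNA (hTG : TG_stmt.{u}) : LNA_stmt.{u} := by
  intro V d h
  refine ⟨fun f hf => LNA_cvx hTG h f hf, fun f f' hf hf' hs => LNA_sub h f f' hf hf' hs, ?_⟩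
  rintro A A' ⟨f, hf, rfl⟩ ⟨f', hf', rfl⟩ hsub
  refine Set.Subset.antisymm hsub ?_
  obtain ⟨ε, t, hε, hft⟩ := LNA_sub h f f' hf hf' (fun n => by
    obtain ⟨m, hm⟩ := hsub ⟨n, rfl⟩
    exact ⟨m, hm.symm⟩)
  rintro _ ⟨m, rfl⟩
  refine ⟨ε * (m - t), ?_⟩
  rw [hft]
  congr 1
  rcases hε with h1 | h1 <;> rw [h1] <;> ring

end Pool.Agent.helper80.EN
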