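import Pool.Agent.helper80.EN.Spec2

/-!
# Row et:TAC: automorphisms of trees preserve the distance
-/

set_option autoImplicit false

namespace Pool.Agent.helper80.EN

universe u

theorem TAC_le {G V : Type u} [Group G] [MulAction G V] (Γ : SimpleGraph V)
    (h : TreeAct G V Γ) (g : G) (x y : V) : Γ.dist (g • x) (g • y) ≤ Γ.dist x y := by
  obtain ⟨p, hp⟩ := (h.tree.connected.preconnected x y).exists_walk_length_eq_dist
  let φ : Γ →g Γ := ⟨fun v => g • v, fun {a b} hab => h.adj g a b hab⟩
  have h1 := SimpleGraph.dist_le (p.map φ)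
  rw [SimpleGraph.Walk.length_map, hp] at h1
  exact h1

theorem TAC (hTB : TB_stmt.{u}) : TAC_stmt.{u} := by
  intro G V _ _ Γ h
  refine ⟨⟨hTB V Γ h.tree, ?_, ?_⟩, ?_, ?_⟩
  · intro g x y
    refine le_antisymm (TAC_le Γ h g x y) ?_
    have h1 := TAC_le Γ h g⁻¹ (g • x) (g • y)
    rwa [inv_smul_smul, inv_smul_smul] at h1
  · intro g x y hxy
    exact h.inv g x y (SimpleGraph.dist_eq_one_iff_adj.mp hxy)
  · intro B
    refine ⟨h.tree, ?_, ?_⟩
    · intro g u v huv
      exact h.adj (g : G) u v huv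
    · intro g u v huv hg
      exact h.inv (g : G) u v huv hg
  · intro u v
    exact SimpleGraph.dist_eq_one_iff_adj

end Pool.Agent.helper80.EN
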