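import Pool.Agent.helper80.EN.Spec2

/-!
# Row et:THL: Helly property of trees
-/

set_option autoImplicit false

namespace Pool.Agent.helper80.EN

universe u

theorem THL_three (hTG : TG_stmt.{u}) {V : Type u} {d : V → V → ℕ} (h : TM d) {A B C : Set V}
    (hA : Cvx d A) (hB : Cvx d B) (hC : Cvx d C) (hAB : ∃ v, v ∈ A ∧ v ∈ B)
    (hBC : ∃ v, v ∈ B ∧ v ∈ C) (hAC : ∃ v, v ∈ A ∧ v ∈ C) : ∃ v, v ∈ A ∧ v ∈ B ∧ v ∈ C := by
  obtain ⟨x, hxA, hxB⟩ := hAB
  obtain ⟨y, hyB, hyC⟩ := hBC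
  obtain ⟨z, hzA, hzC⟩ := hAC
  obtain ⟨m, h1, h2, h3⟩ := (hTG V d h).2.1 x y z
  exact ⟨m, hA x hxA z hzA m h3, hB x hxB y hyB m h1, hC y hyC z hzC m h2⟩

theorem THL (hTG : TG_stmt.{u}) : THL_stmt.{u} := by
  intro V d h ι s C hs
  induction hs using Finset.Nonempty.cons_induction generalizing C with
  | singleton a =>
    intro _ hp
    obtain ⟨v, hv, _⟩ := hp a (Finset.mem_singleton_self a) a (Finset.mem_singleton_self a)
    refine ⟨v, fun i hi => ?_⟩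
    rw [Finset.mem_singleton.mp hi]
    exact hv
  | cons a s ha hs ih =>
    intro hC hp
    have hCa := hC a (Finset.mem_cons_self a s)
    have hmem : ∀ i ∈ s, i ∈ Finset.cons a s ha := fun i hi => Finset.mem_cons_of_mem hi
    obtain ⟨v, hv⟩ := ih (fun i => C i ∩ C a)
      (fun i hi x hx y hy m hm => ⟨hC i (hmem i hi) x hx.1 y hy.1 m hm, hCa x hx.2 y hy.2 m hm⟩)
      (fun i hi j hj => by
        obtain ⟨v, h1, h2, h3⟩ := THL_three hTG h (hC i (hmem i hi)) (hC j (hmem j hj)) hCa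
          (hp i (hmem i hi) j (hmem j hj)) (hp j (hmem j hj) a (Finset.mem_cons_self a s))
          (hp i (hmem i hi) a (Finset.mem_cons_self a s))
        exact ⟨v, ⟨h1, h3⟩, ⟨h2, h3⟩⟩)
    refine ⟨v, fun i hi => ?_⟩
    rcases Finset.mem_cons.mp hi with rfl | hi
    · obtain ⟨j, hj⟩ := hs
      exact (hv j hj).2
    · exact (hv i hi).1

end Pool.Agent.helper80.EN
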